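import Pool.Agent.MWG.Stmts

/-!
Squad MWG: the common part of the rows JGL and JGR.
-/

set_option autoImplicit false

namespace Pool.Agent.MWG.H60

open Pool.Agent.Helper14_MV Pool.Agent.Helper2_MV Pool.Agent.MVO Pool.Agent.MWL Pool.Agent.MWS
open Pool.Agent.MWG

theorem bef_iff (l : List ℕ) (x y : ℕ) : Bef l x y ↔ ¬ (List.Sublist [y, x] l) := by
  unfold Bef
  constructor
  · intro h hs
    obtain ⟨r₁, r₂, rfl, h1, h2⟩ := List.cons_sublist_iff.1 hs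
    obtain ⟨P, Q, rfl⟩ := List.append_of_mem h1
    have h3 : x ∈ r₂ := List.singleton_sublist.1 h2
    exact h P (Q ++ r₂) (by simp) (List.mem_append_right _ h3)
  · rintro h P Q rfl hx
    refine h ?_
    refine List.Sublist.trans ?_ (List.sublist_append_right P (y :: Q))
    exact (List.singleton_sublist.2 hx).cons_cons y

theorem eqt_of_eq {k : ℕ} {a a' : ℕ → ℕ} (h : ∀ j ≤ k, a j = a' j) : Eqt k a a' := by
  intro j hj
  refine ⟨by rw [h j hj], ?_⟩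
  unfold Lf
  rw [h j hj]
  constructor
  · rintro ⟨h1, h2⟩
    exact ⟨h1, fun j' hj' => by rw [← h j' (by omega)]; exact h2 j' hj'⟩
  · rintro ⟨h1, h2⟩
    exact ⟨h1, fun j' hj' => by rw [h j' (by omega)]; exact h2 j' hj'⟩

theorem eqt_symm {k : ℕ} {a a' : ℕ → ℕ} (h : Eqt k a a') : Eqt k a' a :=
  fun j hj => ⟨(h j hj).1.symm, (h j hj).2.symm⟩

theorem eqt_trans {k : ℕ} {a a' a'' : ℕ → ℕ} (h : Eqt k a a') (h' : Eqt k a' a'') : Eqt k a a'' :=
  fun j hj => ⟨(h j hj).1.trans (h' j hj).1, (h j hj).2.trans (h' j hj).2⟩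

theorem eqt_refl (k : ℕ) (a : ℕ → ℕ) : Eqt k a a := fun _ _ => ⟨Iff.rfl, Iff.rfl⟩

theorem core (jpi : MWS.JpiStmt) (bsm : BsmStmt) (cbt : CbtStmt) (cls : ClsStmt)
    {β : FIC} (hβ : ClM β) {k : ℕ} {a b : ℕ → ℕ} {i : ℕ} (hr : Rl k a b i) {l0 l1 : List ℕ}
    {x y : ℕ} (h0 : Adm b i l0) (h1 : Adm b i l1) (hd : ¬ (Bef l0 x y ↔ Bef l1 x y))
    (hET : ∀ θ : FIC, β ≤ θ → (EE θ ∨ TT θ ∨ FF θ) →
      RR θ (asm k (cb a b i l0)) (asm k (cb a b i l1)))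
    (htw : ∀ θ : FIC, β ≤ θ → ∀ B B' : ℕ → List ℕ, OkB k B → OkB k B' → Two01 k B →
      Two01 k B' → Sms k B B' → Eqt k (ty B 0) a → Eqt k (ty B 1) b → RR θ (asm k B) (asm k B') →
        ¬ (Bef (B i) x y ↔ Bef (B' i) x y) → RR θ (asm k (cb a b i l0)) (asm k (cb a b i l1))) :
    JPp β (asm k (cb a b i l0), asm k (cb a b i l1)) := by
  obtain ⟨o0, t0, e00, e01⟩ := cbt k a b i l0 hr h0
  obtain ⟨o1, -, -, -⟩ := cbt k a b i l1 hr h1
  have hik : i ≤ k := hr.vis.1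
  have hci : ∀ l : List ℕ, cb a b i l i = l := fun l => by unfold cb; exact if_pos rfl
  refine jpi β (bsm β hβ).toApI k (cb a b i l0) (cb a b i l1)
    (fun B => Sms k B (cb a b i l0) ∧ (Bef (B i) x y ↔ Bef l0 x y)) o0 o1 t0 ?_ ?_ ?_ ?_
  · refine ⟨fun c => eqt_refl k _, ?_⟩
    rw [hci]
  · rintro ⟨-, h⟩
    rw [hci] at h
    exact hd h.symm
  · rintro B B' hBB ⟨h2, h3⟩
    refine ⟨fun c => eqt_trans (eqt_of_eq fun j hj => ?_) (h2 c), ?_⟩
    · unfold ty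
      rw [hBB j hj]
    · rw [← hBB i hik]
      exact h3
  · rintro θ hle - hne B B' ok ok' two two' hrr ⟨hs, hbf⟩
    have nE : ¬ EE θ := fun h => hne (hET θ hle (Or.inl h))
    have nT : ¬ TT θ := fun h => hne (hET θ hle (Or.inr (Or.inl h)))
    have nF : ¬ FF θ := fun h => hne (hET θ hle (Or.inr (Or.inr h)))
    have hs' := cls β θ hβ hle nE nT nF k B B' ok ok' hrr
    refine ⟨fun c => eqt_trans (eqt_symm (hs' c)) (hs c), ?_⟩
    by_contra hcon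
    refine hne (htw θ hle B B' ok ok' two two' hs' (eqt_trans (hs 0) e00) (eqt_trans (hs 1) e01)
      hrr fun h => hcon (h.symm.trans hbf))

end Pool.Agent.MWG.H60
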