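import Pool.Agent.Helper60_MWG.Core

/-!
Squad MWG, row JGL.
-/

set_option autoImplicit false

namespace Pool.Agent.MWG.H60

open Pool.Agent.Helper14_MV Pool.Agent.Helper2_MV Pool.Agent.MVO Pool.Agent.MWL Pool.Agent.MWS
open Pool.Agent.MWG

theorem adm_mL (b : ℕ → ℕ) (i : ℕ) : Adm b i (mL b i).1 ∧ Adm b i (mL b i).2 := by
  unfold mL
  by_cases h : Lf b i
  · rw [if_pos h]
    exact ⟨⟨by decide, by decide, fun _ => by decide, fun h' => absurd h h'⟩,
      ⟨by decide, by decide, fun _ => by decide, fun h' => absurd h h'⟩⟩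
  · rw [if_neg h]
    exact ⟨⟨by decide, by decide, fun h' => absurd h' h, fun _ => by decide⟩,
      ⟨by decide, by decide, fun h' => absurd h' h, fun _ => by decide⟩⟩

theorem diff_mL (b : ℕ → ℕ) (i : ℕ) : ¬ (Bef (mL b i).1 1 0 ↔ Bef (mL b i).2 1 0) := by
  rw [bef_iff, bef_iff]
  unfold mL
  by_cases h : Lf b i
  · rw [if_pos h]
    decide
  · rw [if_neg h]
    decide

theorem jgl (jpi : MWS.JpiStmt) (bsm : BsmStmt) (eqv : EqvStmt) (cbt : CbtStmt) (twd : TwdStmt)
    (cls : ClsStmt) (ebx : EbxStmt) : JglStmt := by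
  intro β hβ k a b i hr hF
  obtain ⟨h0, h1⟩ := adm_mL b i
  refine core jpi bsm cbt cls hβ hr h0 h1 (diff_mL b i) ?_ ?_
  · rintro θ hle (h | h | h)
    · exact (ebx β θ hβ hle (Or.inl h) k a b i hr).1
    · exact (ebx β θ hβ hle (Or.inr h) k a b i hr).1
    · exact hF θ hle h
  · intro θ hle B B' ok ok' two two' hs ea eb hrr hne
    obtain ⟨q1, -, q3⟩ := eqv k (ty B 0) a (ty B 1) b ea eb
    have hv : Vis k (ty B 0) (ty B 1) i := (q1 i).2 hr.vis
    have h := (twd β θ hβ hle k B B' ok ok' two two' hs i hv hrr).2 hne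
    unfold XL at h
    rw [(q3 i hr.vis.1).1] at h
    exact h

end Pool.Agent.MWG.H60
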